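import Pool.Agent.Run7.h543.DEP.Stm

/-!
# DEP, piece GRE (helper973): the Green function of a Laplacian with a spectral gap
-/

set_option autoImplicit false
set_option linter.unusedSectionVars false

noncomputable section

namespace Run7.h973.DEP

open Finset Matrix Run7.h543.DEP

variable {V : Type} [Fintype V] [DecidableEq V]

theorem lap_symm {t : V → V → ℝ} (h : ∀ x y, t x y = t y x) (x y : V) :
    lap t x y = lap t y x := by
  unfold lap
  by_cases hxy : x = y
  · subst hxy; rfl
  · rw [if_neg hxy, if_neg (Ne.symm hxy), h x y]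

theorem lap_transpose {t : V → V → ℝ} (h : ∀ x y, t x y = t y x) : (lap t)ᵀ = lap t := by
  ext x y
  exact lap_symm h y x

theorem lap_row (t : V → V → ℝ) (x : V) : ∑ y, lap t x y = 0 := by
  unfold lap
  rw [sum_sub_distrib, sum_ite_eq, if_pos (mem_univ x), sub_self]

theorem lap_mulVec (t : V → V → ℝ) (f : V → ℝ) (x : V) :
    (lap t *ᵥ f) x = ∑ y, t x y * (f x - f y) := by
  change ∑ y, ((if x = y then ∑ z, t x z else 0) - t x y) * f y = _
  have h1 : ∀ y, ((if x = y then ∑ z, t x z else 0) - t x y) * f y =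
      (if x = y then (∑ z, t x z) * f y else 0) - t x y * f y := by
    intro y
    split_ifs <;> ring
  simp only [h1, sum_sub_distrib, sum_ite_eq, mem_univ, if_true, mul_sub, sum_mul]

theorem lap_form {t : V → V → ℝ} (h : ∀ x y, t x y = t y x) (f : V → ℝ) :
    ∑ x, f x * (lap t *ᵥ f) x = ∑ x, ∑ y, t x y * (f y - f x) ^ 2 / 2 := by
  have h1 : ∑ x, f x * (lap t *ᵥ f) x = ∑ x, ∑ y, t x y * (f x - f y) * f x := by
    refine sum_congr rfl fun x _ => ?_
    rw [lap_mulVec, mul_sum]
    exact sum_congr rfl fun y _ => by ring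
  have h2 : ∑ x, f x * (lap t *ᵥ f) x = ∑ x, ∑ y, t x y * (f y - f x) * f y := by
    rw [h1, sum_comm]
    exact sum_congr rfl fun x _ => sum_congr rfl fun y _ => by rw [h y x]
  have h3 : ∑ x, f x * (lap t *ᵥ f) x + ∑ x, f x * (lap t *ᵥ f) x =
      ∑ x, ∑ y, t x y * (f y - f x) ^ 2 := by
    nth_rw 1 [h1]
    rw [h2, ← sum_add_distrib]
    refine sum_congr rfl fun x _ => ?_
    rw [← sum_add_distrib]
    exact sum_congr rfl fun y _ => by ring
  have h4 : ∑ x, ∑ y, t x y * (f y - f x) ^ 2 / 2 = (∑ x, ∑ y, t x y * (f y - f x) ^ 2) / 2 := by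
    rw [sum_div]
    exact sum_congr rfl fun x _ => (sum_div _ _ _).symm
  rw [h4, ← h3]
  ring

theorem card_pos' (hn : 1 ≤ Fintype.card V) : (0 : ℝ) < Fintype.card V := by
  exact_mod_cast hn

theorem JJ_mulVec (f : V → ℝ) (x : V) : (JJ V *ᵥ f) x = (∑ y, f y) / Fintype.card V := by
  change ∑ y, 1 / (Fintype.card V : ℝ) * f y = _
  rw [← mul_sum]
  ring

theorem JJ_transpose : (JJ V)ᵀ = JJ V := rfl

theorem lap_mul_JJ (t : V → V → ℝ) : lap t * JJ V = 0 := by
  ext x y
  rw [Matrix.mul_apply]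
  change ∑ z, lap t x z * (1 / (Fintype.card V : ℝ)) = 0
  rw [← sum_mul, lap_row, zero_mul]

theorem JJ_mul_JJ (hn : 1 ≤ Fintype.card V) : JJ V * JJ V = JJ V := by
  have h0 := card_pos' hn
  ext x y
  rw [Matrix.mul_apply]
  change ∑ z : V, 1 / (Fintype.card V : ℝ) * (1 / (Fintype.card V : ℝ)) = 1 / (Fintype.card V : ℝ)
  rw [sum_const, card_univ, nsmul_eq_mul]
  field_simp

section main

variable {t : V → V → ℝ} {D g : ℝ}

theorem isUnit_M (hg : 0 < g) (hn : 1 ≤ Fintype.card V) (ht : IsHopping t D)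
    (gap : HasGapT t g) : IsUnit (lap t + JJ V) := by
  have h0 := card_pos' hn
  rw [Matrix.isUnit_iff_isUnit_det, isUnit_iff_ne_zero]
  intro hdet
  obtain ⟨f, hf0, hf⟩ := Matrix.exists_mulVec_eq_zero_iff.mpr hdet
  have hs : ∑ x, (lap t *ᵥ f) x = 0 := by
    have : ∀ x, (lap t *ᵥ f) x = ∑ y, lap t x y * f y := fun x => rfl
    simp only [this]
    rw [sum_comm]
    refine sum_eq_zero fun y _ => ?_
    rw [← sum_mul]
    have : ∑ x, lap t x y = ∑ x, lap t y x := sum_congr rfl fun x _ => lap_symm ht.symm x y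
    rw [this, lap_row, zero_mul]
  have hx : ∀ x, (lap t *ᵥ f) x + (∑ y, f y) / Fintype.card V = 0 := by
    intro x
    have := congrFun hf x
    rw [Matrix.add_mulVec] at this
    rw [← JJ_mulVec f x]
    exact this
  have hsum : ∑ y, f y = 0 := by
    have h1 : ∑ x, ((lap t *ᵥ f) x + (∑ y, f y) / Fintype.card V) = 0 :=
      sum_eq_zero fun x _ => hx x
    rw [sum_add_distrib, hs, zero_add, sum_const, card_univ, nsmul_eq_mul] at h1
    field_simp at h1
    linarith
  have hL : ∀ x, (lap t *ᵥ f) x = 0 := by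
    intro x
    have := hx x
    rw [hsum, zero_div, add_zero] at this
    exact this
  have hq := gap f hsum
  rw [← lap_form ht.symm f] at hq
  have hz : ∑ x, f x * (lap t *ᵥ f) x = 0 := sum_eq_zero fun x _ => by rw [hL x, mul_zero]
  rw [hz] at hq
  have hsq : ∑ x, f x ^ 2 = 0 := by
    have h1 : 0 ≤ ∑ x, f x ^ 2 := sum_nonneg fun x _ => sq_nonneg _
    nlinarith
  apply hf0
  funext x
  have := (sum_eq_zero_iff_of_nonneg fun x _ => sq_nonneg (f x)).1 hsq x (mem_univ x)
  exact pow_eq_zero_iff (two_ne_zero) |>.1 this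

theorem inv_mul_M (hg : 0 < g) (hn : 1 ≤ Fintype.card V) (ht : IsHopping t D)
    (gap : HasGapT t g) : (lap t + JJ V)⁻¹ * (lap t + JJ V) = 1 :=
  Matrix.nonsing_inv_mul _ ((Matrix.isUnit_iff_isUnit_det _).1 (isUnit_M hg hn ht gap))

theorem mul_inv_M (hg : 0 < g) (hn : 1 ≤ Fintype.card V) (ht : IsHopping t D)
    (gap : HasGapT t g) : (lap t + JJ V) * (lap t + JJ V)⁻¹ = 1 :=
  Matrix.mul_nonsing_inv _ ((Matrix.isUnit_iff_isUnit_det _).1 (isUnit_M hg hn ht gap))

theorem green_transpose (ht : IsHopping t D) : (green t)ᵀ = green t := by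
  unfold green
  rw [Matrix.transpose_sub, Matrix.transpose_nonsing_inv, Matrix.transpose_add,
    lap_transpose ht.symm, JJ_transpose]

theorem JJ_mul_green (hg : 0 < g) (hn : 1 ≤ Fintype.card V) (ht : IsHopping t D)
    (gap : HasGapT t g) : JJ V * green t = 0 ∧ JJ V * (lap t + JJ V)⁻¹ = JJ V := by
  have h1 : JJ V * (lap t + JJ V) = JJ V := by
    have : JJ V * lap t = 0 := by
      have := congrArg Matrix.transpose (lap_mul_JJ t)
      rwa [Matrix.transpose_mul, lap_transpose ht.symm, JJ_transpose, Matrix.transpose_zero] at this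
    rw [Matrix.mul_add, this, zero_add, JJ_mul_JJ hn]
  have h2 : JJ V * (lap t + JJ V)⁻¹ = JJ V := by
    nth_rw 1 [← h1]
    rw [Matrix.mul_assoc, mul_inv_M hg hn ht gap, Matrix.mul_one]
  refine ⟨?_, h2⟩
  unfold green
  rw [Matrix.mul_sub, h2, JJ_mul_JJ hn, sub_self]

theorem lap_mul_green (hg : 0 < g) (hn : 1 ≤ Fintype.card V) (ht : IsHopping t D)
    (gap : HasGapT t g) : lap t * green t = 1 - JJ V := by
  unfold green
  rw [Matrix.mul_sub, lap_mul_JJ, sub_zero]
  have h := mul_inv_M hg hn ht gap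
  rw [Matrix.add_mul, (JJ_mul_green hg hn ht gap).2] at h
  exact eq_sub_of_add_eq h

end main

theorem t_GRE : S_GRE := by
  intro V _ _ t D g _ hg hn ht gap
  have h0 := card_pos' hn
  have hsymm : ∀ x y, green t x y = green t y x := fun x y =>
    congrFun (congrFun (green_transpose ht) y) x
  have hLG : ∀ x y, (lap t * green t) x y =
      (if x = y then 1 else 0) - 1 / (Fintype.card V : ℝ) := by
    intro x y
    rw [lap_mul_green hg hn ht gap, Matrix.sub_apply, Matrix.one_apply]
    rfl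
  have hrow : ∀ x, ∑ y, green t x y = 0 := by
    intro x
    have h1 := congrFun (congrFun (JJ_mul_green hg hn ht gap).1 x) x
    rw [Matrix.mul_apply] at h1
    change ∑ z, 1 / (Fintype.card V : ℝ) * green t z x = 0 at h1
    rw [← mul_sum] at h1
    have h2 : ∑ z, green t z x = 0 := by
      rcases mul_eq_zero.1 h1 with h | h
      · exact absurd h (one_div_pos.2 h0).ne'
      · exact h
    rw [← h2]
    exact sum_congr rfl fun z _ => hsymm x z
  -- the columns
  have hcol : ∀ x, g * ∑ y, green t x y ^ 2 ≤ green t x x := by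
    intro x
    have h1 := gap (fun y => green t x y) (hrow x)
    rw [← lap_form ht.symm] at h1
    refine h1.trans (le_of_eq ?_)
    have h2 : ∀ y, (lap t *ᵥ fun y => green t x y) y =
        (if y = x then 1 else 0) - 1 / (Fintype.card V : ℝ) := by
      intro y
      rw [← hLG y x, Matrix.mul_apply]
      change ∑ z, lap t y z * green t x z = _
      exact sum_congr rfl fun z _ => by rw [hsymm x z]
    simp only [h2]
    have h3 : ∀ y, green t x y * ((if y = x then 1 else 0) - 1 / (Fintype.card V : ℝ)) =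
        (if y = x then green t x y else 0) - green t x y * (1 / (Fintype.card V : ℝ)) := by
      intro y
      split_ifs <;> ring
    simp only [h3]
    rw [sum_sub_distrib, sum_ite_eq', if_pos (mem_univ x), ← sum_mul, hrow, zero_mul, sub_zero]
  have hs0 : ∀ x, 0 ≤ ∑ y, green t x y ^ 2 := fun x => sum_nonneg fun y _ => sq_nonneg _
  have hle : ∀ x, green t x x ^ 2 ≤ ∑ y, green t x y ^ 2 := fun x =>
    single_le_sum (f := fun y => green t x y ^ 2) (fun y _ => sq_nonneg _) (mem_univ x)
  have hdiag0 : ∀ x, 0 ≤ green t x x := fun x =>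
    (mul_nonneg hg.le (hs0 x)).trans (hcol x)
  have hsq : ∀ x, ∑ y, green t x y ^ 2 ≤ 1 / g ^ 2 := by
    intro x
    rw [le_div_iff₀ (by positivity)]
    by_contra hcon
    push Not at hcon
    have hs := hs0 x
    have h1 := hcol x
    have h2 := hle x
    set s := ∑ y, green t x y ^ 2 with hsdef
    have hspos : 0 < s := by
      rcases hs.lt_or_eq with h | h
      · exact h
      · rw [← h] at hcon; norm_num at hcon
    have h3 : (g * s) ^ 2 ≤ s := by
      have h4 : 0 ≤ g * s := by positivity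
      have h5 : (g * s) ^ 2 ≤ green t x x ^ 2 := by
        exact pow_le_pow_left₀ h4 h1 2
      linarith
    have h6 : s * (s * g ^ 2) ≤ s * 1 := by
      calc s * (s * g ^ 2) = (g * s) ^ 2 := by ring
        _ ≤ s := h3
        _ = s * 1 := (mul_one s).symm
    have h7 := le_of_mul_le_mul_left h6 hspos
    linarith
  have hdiag1 : ∀ x, green t x x ≤ 1 / g := by
    intro x
    have h1 : green t x x ^ 2 ≤ (1 / g) ^ 2 := by
      rw [div_pow, one_pow]
      exact (hle x).trans (hsq x)
    exact (le_abs_self _).trans (abs_le_of_sq_le_sq h1 (by positivity))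
  refine ⟨hsymm, hLG, hrow, hsq, hdiag0, hdiag1, ?_, ?_, ?_, ?_⟩
  · exact div_nonneg (sum_nonneg fun x _ => hdiag0 x) h0.le
  · unfold aa
    rw [div_le_iff₀ h0]
    calc trace (green t) = ∑ x, green t x x := rfl
      _ ≤ ∑ _x : V, 1 / g := sum_le_sum fun x _ => hdiag1 x
      _ = 1 / g * Fintype.card V := by rw [sum_const, card_univ, nsmul_eq_mul, mul_comm]
  all_goals
    have htr : trace (green t * green t) = ∑ x, ∑ y, green t x y ^ 2 := by
      change ∑ x, (green t * green t) x x = _
      refine sum_congr rfl fun x _ => ?_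
      rw [Matrix.mul_apply]
      exact sum_congr rfl fun y _ => by rw [hsymm y x, sq]
  · unfold bb
    rw [htr]
    exact div_nonneg (sum_nonneg fun x _ => hs0 x) h0.le
  · unfold bb
    rw [htr, div_le_iff₀ h0]
    calc ∑ x, ∑ y, green t x y ^ 2 ≤ ∑ _x : V, 1 / g ^ 2 := sum_le_sum fun x _ => hsq x
      _ = 1 / g ^ 2 * Fintype.card V := by rw [sum_const, card_univ, nsmul_eq_mul, mul_comm]

end Run7.h973.DEP
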