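import Pool.Agent.Run7.h543.DEP.Stm3

/-!
# Piece GIX of project DEQ (helper543), MP_4952d6_mp; adapted by helper973 from `t_GIB` of helper593,
which follows `gibbs_lin` of helper543
-/

set_option autoImplicit false
set_option linter.unusedSectionVars false

noncomputable section

namespace Run7.h973.DEP

open Finset Matrix Run7.h259.BEC Run7.h543.DEP

/-- the mean energy of a Gibbs state of particles with an exclusion -/
theorem t_GIX : S_GIX := by
  intro V _ _ Hd _ en N hN1 hN φ hφ hφx T hT m b E hb
  have hV : Nonempty V := Fintype.card_pos_iff.1 (by omega)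
  have hn0 : (0 : ℝ) < Fintype.card V := by exact_mod_cast Fintype.card_pos
  have hNpos : (0 : ℝ) < N := by exact_mod_cast hN1
  -- the dimension
  have hdim : (m : ℝ) ≤ (Fintype.card V).choose N := by
    classical
    have h1 : ∀ S : Finset V, S.card = N → ∑ i, ‖b i S‖ ^ 2 ≤ 1 := by
      intro S hS
      by_cases hx : ∃ x ∈ S, ∃ y ∈ S, x ≠ y ∧ Hd x y
      · have h0 : ∑ i, ‖b i S‖ ^ 2 = 0 :=
          sum_eq_zero fun i _ => by rw [hb.excl i S hx]; simp
        rw [h0]
        exact zero_le_one
      have h2 := hb.complete (fun T => if T = S then 1 else 0) (fun T hT => by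
        rw [if_neg]; rintro rfl; exact hT hS) (fun T hT => by
        change (if T = S then (1 : ℂ) else 0) = 0
        rw [if_neg]; rintro rfl; exact hx hT)
      have h3 : ∑ T : Finset V, ‖(if T = S then (1 : ℂ) else 0)‖ ^ 2 = 1 := by
        rw [sum_eq_single S]
        · simp
        · intro T _ hT; simp [hT]
        · simp
      rw [h3] at h2
      rw [h2]
      refine le_of_eq (sum_congr rfl fun i _ => ?_)
      have h4 : ∑ T, (starRingEnd ℂ) (b i T) * (if T = S then (1 : ℂ) else 0) =
          (starRingEnd ℂ) (b i S) := by simp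
      rw [h4, RCLike.norm_conj]
    have h5 : ∑ i, ∑ S, ‖b i S‖ ^ 2 = m := by
      simp_rw [fun i => (hb.state i).2]
      simp
    rw [← h5, sum_comm]
    have h6 : ∀ S : Finset V, ∑ i, ‖b i S‖ ^ 2 ≤ if S.card = N then 1 else 0 := by
      intro S
      by_cases hS : S.card = N
      · rw [if_pos hS]; exact h1 S hS
      · rw [if_neg hS]
        exact le_of_eq (sum_eq_zero fun i _ => by rw [(hb.state i).1 S hS]; simp)
    refine (sum_le_sum fun S _ => h6 S).trans (le_of_eq ?_)
    rw [← sum_filter, sum_const, nsmul_eq_mul, mul_one, ← card_univ (α := V), ← card_powersetCard]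
    congr 2
    ext S
    simp [mem_powersetCard]
  have hmne : m ≠ 0 := by
    rintro rfl
    have h1 := hb.complete φ hφ.1 hφx
    rw [hφ.2] at h1
    simp at h1
  have hm0 : (0 : ℝ) < m := by exact_mod_cast Nat.pos_of_ne_zero hmne
  have hm : Nonempty (Fin m) := ⟨⟨0, by exact_mod_cast hm0⟩⟩
  -- the energies of the basis
  have hself : ∀ i, en (b i) = E i := by
    intro i
    rw [hb.diag (b i) (hb.state i).1 (hb.excl i), sum_eq_single i]
    · have h3 : ∑ S, (starRingEnd ℂ) (b i S) * b i S = 1 := by
        have h4 : ∀ S, (starRingEnd ℂ) (b i S) * b i S = ((‖b i S‖ ^ 2 : ℝ) : ℂ) := by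
          intro S; rw [Complex.conj_mul']; norm_cast
        simp_rw [h4]
        rw [← Complex.ofReal_sum, (hb.state i).2, Complex.ofReal_one]
      rw [h3]
      simp
    · intro j _ hj
      rw [hb.ortho j i hj]
      simp
    · intro h
      exact absurd (mem_univ i) h
  -- partition function
  obtain ⟨Z, hZ⟩ : ∃ Z : ℝ, Z = ∑ i, Real.exp (-E i / T) := ⟨_, rfl⟩
  have hZ0 : 0 < Z := by
    rw [hZ]
    exact sum_pos (fun i _ => Real.exp_pos _) univ_nonempty
  obtain ⟨p, hp⟩ : ∃ p : Fin m → ℝ, p = fun i => Real.exp (-E i / T) / Z := ⟨_, rfl⟩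
  have hpi : ∀ i, p i = Real.exp (-E i / T) / Z := fun i => by rw [hp]
  have hp0 : ∀ i, 0 < p i := fun i => by
    rw [hpi]
    exact div_pos (Real.exp_pos _) hZ0
  have hp1 : ∑ i, p i = 1 := by
    simp_rw [hpi]
    rw [← sum_div, ← hZ]; exact div_self hZ0.ne'
  have hlogp : ∀ i, E i = -T * Real.log (p i) - T * Real.log Z := by
    intro i
    rw [hpi, Real.log_div (Real.exp_ne_zero _) hZ0.ne', Real.log_exp]
    field_simp; ring
  -- Jensen
  have hfree : -T * Real.log Z ≤ en φ := by
    obtain ⟨w, hw⟩ : ∃ w : Fin m → ℝ, w = fun i => ‖∑ S, (starRingEnd ℂ) (b i S) * φ S‖ ^ 2 :=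
      ⟨_, rfl⟩
    have hw0 : ∀ i, 0 ≤ w i := fun i => by rw [hw]; positivity
    have hw1 : ∑ i, w i = 1 := by rw [← hφ.2, hw]; exact (hb.complete φ hφ.1 hφx).symm
    have hE : en φ = ∑ i, E i * w i := by rw [hw]; exact hb.diag φ hφ.1 hφx
    have hwle : ∀ i, w i ≤ 1 := fun i => by
      rw [← hw1]; exact single_le_sum (fun j _ => hw0 j) (mem_univ i)
    have h1 : Real.exp (-en φ / T) ≤ Z := by
      have h2 : ∑ i, w i * (Real.exp (-en φ / T) *
          (1 + (-E i / T - -en φ / T))) ≤ ∑ i, w i * Real.exp (-E i / T) := by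
        refine sum_le_sum fun i _ => mul_le_mul_of_nonneg_left ?_ (hw0 i)
        have h3 := Real.add_one_le_exp (-E i / T - -en φ / T)
        have h4 : Real.exp (-E i / T) = Real.exp (-en φ / T) *
            Real.exp (-E i / T - -en φ / T) := by
          rw [← Real.exp_add]; congr 1; ring
        rw [h4]
        exact mul_le_mul_of_nonneg_left (by linarith) (Real.exp_pos _).le
      have h5 : ∑ i, w i * (Real.exp (-en φ / T) *
          (1 + (-E i / T - -en φ / T))) = Real.exp (-en φ / T) := by
        have h6 : ∀ i, w i * (Real.exp (-en φ / T) *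
          (1 + (-E i / T - -en φ / T))) = Real.exp (-en φ / T) *
            ((1 + en φ / T) * w i - (E i * w i) / T) := by intro i; ring
        simp_rw [h6]
        rw [← mul_sum, sum_sub_distrib, ← mul_sum, ← sum_div, hw1, ← hE]
        ring
      have h7 : ∑ i, w i * Real.exp (-E i / T) ≤ Z := by
        rw [hZ]
        refine sum_le_sum fun i _ => ?_
        have := (Real.exp_pos (-E i / T)).le
        have := hwle i
        nlinarith
      linarith
    have h8 : -en φ / T ≤ Real.log Z := by
      rw [← Real.log_exp (-en φ / T)]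
      exact Real.log_le_log (Real.exp_pos _) h1
    rw [div_le_iff₀ hT] at h8
    linarith
  -- entropy
  have hent : ∑ i, -(p i * Real.log (p i)) ≤ Real.log m := by
    have h1 : ∀ i, -(p i * Real.log (p i)) ≤ p i * Real.log m + (1 / m - p i) := by
      intro i
      have h2 : Real.log (1 / (p i * m)) ≤ 1 / (p i * m) - 1 :=
        Real.log_le_sub_one_of_pos (one_div_pos.2 (mul_pos (hp0 i) hm0))
      rw [one_div, Real.log_inv, Real.log_mul (hp0 i).ne' hm0.ne'] at h2
      have h3 := mul_le_mul_of_nonneg_left h2 (hp0 i).le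
      have h4 : p i * ((p i * (m : ℝ))⁻¹ - 1) = 1 / m - p i := by
        have := (hp0 i).ne'
        field_simp
      rw [h4] at h3
      linarith
    refine (sum_le_sum fun i _ => h1 i).trans (le_of_eq ?_)
    have e1 : ∑ _i : Fin m, (1 / (m : ℝ)) = 1 := by
      rw [sum_const, card_univ, Fintype.card_fin, nsmul_eq_mul, mul_one_div, div_self hm0.ne']
    rw [sum_add_distrib, ← sum_mul, hp1, sum_sub_distrib, hp1, e1]
    ring
  have hmean : ∑ i, p i * E i ≤ en φ + T * Real.log m := by
    have h1 : ∑ i, p i * E i = T * ∑ i, -(p i * Real.log (p i)) + -T * Real.log Z := by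
      have h2 : ∀ i, p i * E i = T * (-(p i * Real.log (p i))) - T * Real.log Z * p i := by
        intro i
        have := hlogp i
        calc p i * E i = p i * (-T * Real.log (p i) - T * Real.log Z) := by rw [← this]
          _ = _ := by ring
      simp_rw [h2]
      rw [sum_sub_distrib, ← mul_sum, ← mul_sum, hp1]; ring
    rw [h1]
    have := mul_le_mul_of_nonneg_left hent hT.le
    linarith
  have hlogm : Real.log m ≤ N * (1 + Real.log (Fintype.card V / N)) := by
    have h1 : (m : ℝ) ≤ (Real.exp 1 * (Fintype.card V / N)) ^ N := by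
      refine hdim.trans ?_
      have h2 : ((Fintype.card V).choose N : ℝ) ≤ (Fintype.card V : ℝ) ^ N / (N.factorial : ℝ) :=
        Nat.choose_le_pow_div N (Fintype.card V)
      have h3 : (N : ℝ) ^ N / (N.factorial : ℝ) ≤ Real.exp N :=
        Real.pow_div_factorial_le_exp (N : ℝ) hNpos.le N
      have h4 : (Fintype.card V : ℝ) ^ N / (N.factorial : ℝ) =
          (Fintype.card V / N) ^ N * ((N : ℝ) ^ N / (N.factorial : ℝ)) := by
        rw [div_pow]; field_simp
      have h5 : Real.exp (N : ℝ) = Real.exp 1 ^ N := by rw [← Real.exp_nat_mul, mul_one]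
      rw [mul_pow, ← h5, mul_comm]
      calc ((Fintype.card V).choose N : ℝ) ≤
            (Fintype.card V / N) ^ N * ((N : ℝ) ^ N / (N.factorial : ℝ)) := by
            rw [← h4]; exact h2
        _ ≤ (Fintype.card V / N) ^ N * Real.exp N :=
          mul_le_mul_of_nonneg_left h3 (by positivity)
    have h6 := Real.log_le_log hm0 h1
    rw [Real.log_pow, Real.log_mul (Real.exp_ne_zero _) (by positivity), Real.log_exp] at h6
    exact h6
  refine ⟨by exact_mod_cast hm0, hself, ?_⟩
  have hg : gibbs E T E = ∑ i, p i * E i := by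
    unfold gibbs
    rw [← hZ, sum_div]
    refine sum_congr rfl fun i _ => ?_
    rw [hpi]
    ring
  rw [hg]
  have h9 := mul_le_mul_of_nonneg_left hlogm hT.le
  linarith

end Run7.h973.DEP
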