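import Pool.Agent.Run7.h543.DEP.Stm3

/-!
# DEQ, piece TOR (helper973): the translation invariant example
-/

set_option autoImplicit false
set_option linter.unusedSectionVars false

noncomputable section

namespace Run7.h973.DEP

open Finset Matrix Run7.h543.DEP

theorem t_TOR : S_TOR := by
  intro V _ _ _ t₀ w₀ H₀ _ D g k hD hg ht1 ht2 ht3 hw1 hw2 hH1 hH2 hk
  have hn : (0 : ℝ) < Fintype.card V := by exact_mod_cast Fintype.card_pos
  have hswap : ∀ x y : V, -(y - x) = x - y := fun x y => neg_sub y x
  refine ⟨⟨?_, ?_, ?_⟩, ?_, ⟨?_, ?_, ?_, ?_, ?_⟩, ?_⟩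
  · intro x y
    change t₀ (x - y) + g / Fintype.card V = t₀ (y - x) + g / Fintype.card V
    rw [← hswap x y, ht1]
  · intro x y
    have := ht2 (x - y)
    have h2 : 0 ≤ g / (Fintype.card V : ℝ) := (div_pos hg hn).le
    change 0 ≤ t₀ (x - y) + g / Fintype.card V
    linarith
  · intro x
    change ∑ y, (t₀ (x - y) + g / Fintype.card V) ≤ D + g
    rw [sum_add_distrib]
    have h1 : ∑ y, t₀ (x - y) = ∑ a, t₀ a := Equiv.sum_comp (Equiv.subLeft x) t₀
    have h2 : ∑ _y : V, g / (Fintype.card V : ℝ) = g := by
      rw [sum_const, card_univ, nsmul_eq_mul]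
      field_simp
    rw [h1, h2]
    linarith
  · intro f hf
    have h1 : ∀ x y, g / (Fintype.card V : ℝ) * (f y - f x) ^ 2 / 2 ≤
        (t₀ (x - y) + g / Fintype.card V) * (f y - f x) ^ 2 / 2 := by
      intro x y
      have h2 := mul_nonneg (ht2 (x - y)) (sq_nonneg (f y - f x))
      have h3 : (t₀ (x - y) + g / Fintype.card V) * (f y - f x) ^ 2 / 2 =
          t₀ (x - y) * (f y - f x) ^ 2 / 2 + g / (Fintype.card V : ℝ) * (f y - f x) ^ 2 / 2 := by
        ring
      rw [h3]
      linarith
    have h4 : ∑ x, ∑ y, g / (Fintype.card V : ℝ) * (f y - f x) ^ 2 / 2 = g * ∑ x, f x ^ 2 := by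
      have h5 : ∀ x, ∑ y, g / (Fintype.card V : ℝ) * (f y - f x) ^ 2 / 2 =
          g / (Fintype.card V : ℝ) / 2 * (∑ y, f y ^ 2) + g / 2 * f x ^ 2 := by
        intro x
        have h6 : ∀ y, g / (Fintype.card V : ℝ) * (f y - f x) ^ 2 / 2 =
            g / (Fintype.card V : ℝ) / 2 * f y ^ 2 -
              g / (Fintype.card V : ℝ) * f x * f y +
              g / (Fintype.card V : ℝ) / 2 * f x ^ 2 := by
          intro y; ring
        simp only [h6]
        rw [sum_add_distrib, sum_sub_distrib, ← mul_sum, ← mul_sum, hf, sum_const, card_univ,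
          nsmul_eq_mul]
        field_simp
        ring
      simp only [h5]
      rw [sum_add_distrib, sum_const, card_univ, nsmul_eq_mul, ← mul_sum]
      field_simp
      ring
    rw [← h4]
    exact sum_le_sum fun x _ => sum_le_sum fun y _ => h1 x y
  · intro x y
    change w₀ (x - y) = w₀ (y - x)
    rw [← hswap x y, hw1]
  · intro x y
    exact hw2 (x - y)
  · intro x y h
    change H₀ (y - x)
    rw [← hswap y x]
    exact hH1 _ h
  · intro x
    change H₀ (x - x)
    rw [sub_self]
    exact hH2
  · intro x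
    refine le_trans (card_le_card_of_injOn (fun y => x - y) ?_ ?_) hk
    · intro y hy
      simp only [coe_filter, mem_univ, true_and, Set.mem_ofPred_eq] at hy ⊢
      exact hy
    · intro y _ y' _ h
      exact sub_right_injective h
  · intro x z
    have h1 : ∀ u v : V, (x + z - u) - (x + z - v) = v - u := fun u v => by abel
    refine ⟨Equiv.subLeft (x + z), ?_, ?_, ?_, ?_, ?_⟩
    · change x + z - x = z
      abel
    · change x + z - z = x
      abel
    · intro u v
      change t₀ ((x + z - u) - (x + z - v)) + g / Fintype.card V = t₀ (u - v) + g / Fintype.card V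
      rw [h1, ← hswap v u, ht1]
    · intro u v
      change w₀ ((x + z - u) - (x + z - v)) = w₀ (u - v)
      rw [h1, ← hswap v u, hw1]
    · intro u v
      change H₀ ((x + z - u) - (x + z - v)) ↔ H₀ (u - v)
      rw [h1]
      constructor
      · intro h
        rw [← hswap u v]
        exact hH1 _ h
      · intro h
        rw [← hswap v u]
        exact hH1 _ h

end Run7.h973.DEP
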